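import Pool.Agent.helper4.NF.SpecA
import Pool.Agent.helper99.LW.KSM

/-!
# Project nf: DCT, counting for the diagonal terms
-/

set_option autoImplicit false

open Complex MeasureTheory

namespace Pool.Agent.NF

open Pool.Agent.helper84.DM Pool.Agent.helper78.ED Pool.Agent.DH Pool.Agent.ZD

theorem DCT_kap_nonneg (x : ℝ) : 0 ≤ kap x := by
  unfold kap
  positivity

theorem DCT_mem_MM (M : ℕ) (m : ℤ) : m ∈ MM M ↔ m ≠ 0 ∧ -(M : ℤ) ≤ m ∧ m ≤ M := by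
  unfold MM
  rw [Finset.mem_erase, Finset.mem_Icc]

/-- the number of representations -/
theorem DCT_card (N M : ℕ) (D : ℝ) (hD : ∀ k : ℕ, 1 ≤ k → k ≤ 4 * M * N → d k ≤ D) (x k : ℤ)
    (p₀ : ℕ × ℤ) (hp₀ : p₀ ∈ Finset.Ioc N (4 * N) ×ˢ MM M)
    (hk : x - p₀.2 * (p₀.1 : ℤ) = k) :
    (((Finset.Ioc N (4 * N) ×ˢ MM M).filter
      fun p : ℕ × ℤ => x - p.2 * (p.1 : ℤ) = k).card : ℝ) ≤ D := by
  rw [Finset.mem_product, Finset.mem_Ioc, DCT_mem_MM] at hp₀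
  obtain ⟨⟨h1, h2⟩, h3, h4, h5⟩ := hp₀
  have hna : p₀.2.natAbs ≤ M := by omega
  have hna0 : 0 < p₀.2.natAbs := Int.natAbs_pos.mpr h3
  have ht1 : 1 ≤ p₀.2.natAbs * p₀.1 := Nat.mul_pos hna0 (by omega)
  have ht2 : p₀.2.natAbs * p₀.1 ≤ 4 * M * N := by
    calc p₀.2.natAbs * p₀.1 ≤ M * (4 * N) := Nat.mul_le_mul hna h2
      _ = 4 * M * N := by ring
  refine le_trans ?_ (hD (p₀.2.natAbs * p₀.1) ht1 ht2)
  unfold d
  rw [Nat.cast_le]
  refine Finset.card_le_card_of_injOn (fun p => p.1) ?_ ?_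
  · intro p hp
    rw [Finset.mem_coe, Finset.mem_filter] at hp
    have h6 : p.2 * (p.1 : ℤ) = p₀.2 * (p₀.1 : ℤ) := by linarith [hp.2]
    have h7 : p.2.natAbs * p.1 = p₀.2.natAbs * p₀.1 := by
      have h8 := congrArg Int.natAbs h6
      rw [Int.natAbs_mul, Int.natAbs_mul, Int.natAbs_natCast, Int.natAbs_natCast] at h8
      exact h8
    rw [Finset.mem_coe, Nat.mem_divisors]
    exact ⟨⟨p.2.natAbs, by rw [← h7, mul_comm]⟩, by omega⟩
  · intro p hp p' hp' hpp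
    rw [Finset.mem_coe, Finset.mem_filter] at hp hp'
    have h6 : p.2 * (p.1 : ℤ) = p'.2 * (p'.1 : ℤ) := by linarith [hp.2, hp'.2]
    have h7 : p.1 = p'.1 := hpp
    have h8 : 0 < p.1 := by
      have h9 := (Finset.mem_Ioc.1 (Finset.mem_product.1 hp.1).1).1
      omega
    rw [← h7] at h6
    have h9 : (p.1 : ℤ) ≠ 0 := by exact_mod_cast h8.ne'
    exact Prod.ext h7 (mul_right_cancel₀ h9 h6)

theorem DCT_one (N M : ℕ) (c D : ℝ) (hc : 0 < c) (hD0 : 0 ≤ D)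
    (hD : ∀ k : ℕ, 1 ≤ k → k ≤ 4 * M * N → d k ≤ D) (x : ℤ) :
    ∑ n ∈ Finset.Ioc N (4 * N), ∑ m' ∈ MM M, kap (c * ((x : ℝ) - m' * n)) ≤
      D * (1 + 4 / c ^ 2) := by
  rw [← Finset.sum_product' (Finset.Ioc N (4 * N)) (MM M)
    (fun (n : ℕ) (m' : ℤ) => kap (c * ((x : ℝ) - m' * n)))]
  have h1 : ∑ p ∈ Finset.Ioc N (4 * N) ×ˢ MM M, kap (c * ((x : ℝ) - (p.2 : ℝ) * p.1)) =
      ∑ p ∈ Finset.Ioc N (4 * N) ×ˢ MM M,
        (fun k : ℤ => kap (c * k)) (x - p.2 * (p.1 : ℤ)) := by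
    refine Finset.sum_congr rfl fun p _ => ?_
    show _ = kap (c * ((x - p.2 * (p.1 : ℤ) : ℤ) : ℝ))
    push_cast
    rfl
  rw [h1, Finset.sum_comp (fun k : ℤ => kap (c * k)) (fun p : ℕ × ℤ => x - p.2 * (p.1 : ℤ))]
  calc ∑ b ∈ (Finset.Ioc N (4 * N) ×ˢ MM M).image (fun p : ℕ × ℤ => x - p.2 * (p.1 : ℤ)),
        ((Finset.Ioc N (4 * N) ×ˢ MM M).filter
          fun p : ℕ × ℤ => x - p.2 * (p.1 : ℤ) = b).card • kap (c * b)
      ≤ ∑ b ∈ (Finset.Ioc N (4 * N) ×ˢ MM M).image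
          (fun p : ℕ × ℤ => x - p.2 * (p.1 : ℤ)), D * kap (c * b) := by
        refine Finset.sum_le_sum fun b hb => ?_
        rw [Finset.mem_image] at hb
        obtain ⟨p₀, hp₀, hb⟩ := hb
        rw [nsmul_eq_mul]
        exact mul_le_mul_of_nonneg_right (DCT_card N M D hD x b p₀ hp₀ hb) (DCT_kap_nonneg _)
    _ = D * ∑ b ∈ (Finset.Ioc N (4 * N) ×ˢ MM M).image
          (fun p : ℕ × ℤ => x - p.2 * (p.1 : ℤ)), kap (c * b) := (Finset.mul_sum _ _ _).symm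
    _ ≤ D * (1 + 4 / c ^ 2) := mul_le_mul_of_nonneg_left (LW.KSM c _ hc).1 hD0

theorem DCT_MMcard (M : ℕ) : ((MM M).card : ℝ) = 2 * M := by
  unfold MM
  rw [Finset.card_erase_of_mem (by rw [Finset.mem_Icc]; constructor <;> omega), Int.card_Icc]
  have : ((M : ℤ) + 1 - -(M : ℤ)).toNat - 1 = 2 * M := by omega
  rw [this]
  push_cast
  ring

/-- **DCT** -/
theorem DCT : DCT_stmt := by
  refine ⟨2 * 3 * 65, by norm_num, ?_⟩
  intro M N D Λ hN hΛ hD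
  have hΛ0 : 0 < Λ := by linarith
  rcases Nat.eq_zero_or_pos M with hM | hM
  · subst hM
    have h : MM 0 = ∅ := by
      ext m
      rw [DCT_mem_MM]
      simp only [Finset.notMem_empty, iff_false]
      omega
    simp [h]
  have hD0 : 0 ≤ D := by
    have h1 := hD 1 le_rfl (by nlinarith)
    unfold d at h1
    exact le_trans (by positivity) h1
  have h4 : 4 / Λ ^ 2 ≤ 64 := by
    rw [div_le_iff₀ (by positivity)]
    nlinarith
  calc ∑ n ∈ Finset.Ioc N (4 * N), ∑ n' ∈ Finset.Ioc N (4 * N), ∑ m ∈ MM M, ∑ m' ∈ MM M,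
        kap (Λ * ((m : ℝ) * n' - m' * n))
      = ∑ n' ∈ Finset.Ioc N (4 * N), ∑ m ∈ MM M, ∑ n ∈ Finset.Ioc N (4 * N), ∑ m' ∈ MM M,
        kap (Λ * ((m : ℝ) * n' - m' * n)) := by
        rw [Finset.sum_comm]
        refine Finset.sum_congr rfl fun n' _ => ?_
        exact Finset.sum_comm
    _ ≤ ∑ n' ∈ Finset.Ioc N (4 * N), ∑ m ∈ MM M, D * 65 := by
        refine Finset.sum_le_sum fun n' _ => Finset.sum_le_sum fun m _ => ?_
        have h := DCT_one N M Λ D hΛ0 hD0 hD (m * (n' : ℤ))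
        push_cast at h
        refine h.trans ?_
        apply mul_le_mul_of_nonneg_left _ hD0
        linarith
    _ = 2 * 3 * 65 * M * N * D := by
        rw [Finset.sum_const, Finset.sum_const, Nat.card_Ioc, nsmul_eq_mul,
          nsmul_eq_mul, DCT_MMcard, show 4 * N - N = 3 * N by omega]
        push_cast
        ring

end Pool.Agent.NF
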